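import Pool.Agent.Helper82.CN.St

set_option autoImplicit false

namespace Pool.Agent.Helper26.CN

open Finset Filter Pool.Agent.Helper82.CN

private lemma bb_pos {p : ℝ} (h0 : 0 < p) (h1 : p ≤ 1 - 1 / Real.exp 2) : 0 < bb p := by
  have he : 0 < 1 / Real.exp 2 := by positivity
  have h2 : 0 < 1 - p := by linarith
  have h3 : 1 - p < 1 := by linarith
  unfold bb
  apply Real.log_pos
  rw [lt_div_iff₀ h2]; linarith

private lemma bb_le {p : ℝ} (h1 : p ≤ 1 - 1 / Real.exp 2) : bb p ≤ 2 := by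
  have he : 0 < 1 / Real.exp 2 := by positivity
  have h2 : 0 < 1 - p := by linarith
  unfold bb
  rw [Real.log_le_iff_le_exp (by positivity), div_le_iff₀ h2]
  have h4 : 1 / Real.exp 2 ≤ 1 - p := by linarith
  have h5 : 0 < Real.exp 2 := Real.exp_pos 2
  calc (1 : ℝ) = Real.exp 2 * (1 / Real.exp 2) := by field_simp
    _ ≤ Real.exp 2 * (1 - p) := by gcongr

private lemma al_mono {p x y : ℝ} (hb : 0 < bb p) (hx : 1 ≤ Real.log x) (hx0 : 0 < x) (hxy : x ≤ y) :
    al p x ≤ al p y := by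
  have hy : Real.log x ≤ Real.log y := Real.log_le_log hx0 hxy
  have hlx : 0 < Real.log x := by linarith
  have hly : 0 < Real.log y := by linarith
  have h1 : Real.log (Real.log y / bb p) - Real.log (Real.log x / bb p) ≤ Real.log y - Real.log x := by
    rw [Real.log_div hly.ne' hb.ne', Real.log_div hlx.ne' hb.ne']
    have h2 : Real.log (Real.log y / Real.log x) ≤ Real.log y / Real.log x - 1 :=
      Real.log_le_sub_one_of_pos (by positivity)
    rw [Real.log_div hly.ne' hlx.ne'] at h2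
    have h3 : Real.log y / Real.log x - 1 ≤ Real.log y - Real.log x := by
      rw [div_sub_one hlx.ne', div_le_iff₀ hlx]
      nlinarith
    linarith
  unfold al
  have h4 : 2 * Real.log x / bb p - 2 * Real.log (Real.log x / bb p) / bb p ≤
      2 * Real.log y / bb p - 2 * Real.log (Real.log y / bb p) / bb p := by
    rw [← sub_div, ← sub_div]
    apply div_le_div_of_nonneg_right _ hb.le
    linarith
  linarith

private lemma al_diff {p x y : ℝ} (hb : 0 < bb p) (hx : 1 ≤ Real.log x) (hx0 : 0 < x) (hxy : x ≤ y) :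
    al p y - al p x ≤ 2 / bb p * (Real.log y - Real.log x) := by
  have hy : Real.log x ≤ Real.log y := Real.log_le_log hx0 hxy
  have hlx : 0 < Real.log x := by linarith
  have h1 : Real.log (Real.log x / bb p) ≤ Real.log (Real.log y / bb p) := by
    apply Real.log_le_log (by positivity)
    gcongr
  unfold al
  have h2 : 2 * Real.log (Real.log x / bb p) / bb p ≤ 2 * Real.log (Real.log y / bb p) / bb p := by
    gcongr
  have h3 : 2 / bb p * (Real.log y - Real.log x) = 2 * Real.log y / bb p - 2 * Real.log x / bb p := by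
    ring
  linarith

private lemma al_tendsto {p : ℝ} (hb : 0 < bb p) (K : ℝ) : ∀ᶠ N : ℕ in atTop, K ≤ al p N := by
  have hL : Tendsto (fun N : ℕ => Real.log (N : ℝ)) atTop atTop :=
    Real.tendsto_log_atTop.comp tendsto_natCast_atTop_atTop
  have h1 := hL.eventually (eventually_ge_atTop (1 : ℝ))
  have h2 := hL.eventually (eventually_ge_atTop
    (bb p * (K - 1) - 2 * (1 + Real.log (bb p / 2) + (1 - Real.log 2))))
  filter_upwards [h1, h2] with N h1 h2
  have hLp : 0 < Real.log (N : ℝ) := by linarith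
  have h3 : Real.log (Real.log (N : ℝ) / bb p) ≤ Real.log N / 2 - 1 - Real.log (bb p / 2) := by
    have h4 : Real.log (Real.log (N : ℝ) / 2) ≤ Real.log N / 2 - 1 :=
      Real.log_le_sub_one_of_pos (by positivity)
    have h5 : Real.log (N : ℝ) / bb p = (Real.log N / 2) / (bb p / 2) := by
      field_simp
    rw [h5, Real.log_div (by positivity) (by positivity)]
    linarith
  unfold al
  have h6 : K - 1 ≤ (2 * Real.log N - 2 * Real.log (Real.log N / bb p) + 2 * (1 - Real.log 2)) / bb p := by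
    rw [le_div_iff₀ hb]
    linarith
  have h7 : (2 * Real.log N - 2 * Real.log (Real.log N / bb p) + 2 * (1 - Real.log 2)) / bb p =
    2 * Real.log N / bb p - 2 * Real.log (Real.log N / bb p) / bb p + 2 * (1 - Real.log 2) / bb p := by
    ring
  linarith

private lemma al_upper {p : ℝ} (hb : 0 < bb p) : ∀ᶠ N : ℕ in atTop,
    al p N ≤ 2 * Real.log N / bb p := by
  have hL : Tendsto (fun N : ℕ => Real.log (N : ℝ)) atTop atTop :=
    Real.tendsto_log_atTop.comp tendsto_natCast_atTop_atTop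
  have h1 : Tendsto (fun N : ℕ => Real.log (Real.log (N : ℝ) / bb p)) atTop atTop :=
    Real.tendsto_log_atTop.comp (hL.atTop_div_const hb)
  filter_upwards [h1.eventually (eventually_ge_atTop (1 - Real.log 2 + bb p / 2))] with N h
  unfold al
  have h2 : 2 * (1 - Real.log 2) / bb p + 1 ≤ 2 * Real.log (Real.log (N : ℝ) / bb p) / bb p := by
    rw [div_add_one hb.ne']
    apply div_le_div_of_nonneg_right _ hb.le
    linarith
  linarith

private lemma log_sq_small (K s : ℝ) (hs : 0 < s) : ∀ᶠ N : ℕ in atTop,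
    K * (Real.log (N : ℝ)) ^ 2 ≤ (N : ℝ) ^ s := by
  have h := (isLittleO_log_rpow_rpow_atTop (s := s) (2 : ℝ) hs).const_mul_left K
  have h1 := (h.comp_tendsto tendsto_natCast_atTop_atTop).bound (show (0 : ℝ) < 1 by norm_num)
  filter_upwards [h1] with N h1
  simp only [Function.comp_apply, one_mul] at h1
  have h2 : ‖(N : ℝ) ^ s‖ = (N : ℝ) ^ s := by
    rw [Real.norm_eq_abs, abs_of_nonneg]; positivity
  rw [h2] at h1
  have h3 : Real.log (N : ℝ) ^ (2 : ℝ) = Real.log (N : ℝ) ^ (2 : ℕ) := by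
    rw [← Real.rpow_natCast]; norm_num
  rw [h3] at h1
  exact (le_abs_self _).trans h1

private lemma log_cu_small (K X t : ℝ) (ht : 0 < t) : ∀ᶠ N : ℕ in atTop,
    X + K * (Real.log (N : ℝ)) ^ 3 ≤ t * N := by
  have h := (Real.isLittleO_pow_log_id_atTop (n := 3)).const_mul_left K
  have h1 := (h.comp_tendsto tendsto_natCast_atTop_atTop).bound (show (0 : ℝ) < t / 2 by positivity)
  have h4 := (tendsto_natCast_atTop_atTop (R := ℝ)).eventually (eventually_ge_atTop (X / (t / 2)))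
  filter_upwards [h1, h4] with N h1 h4
  simp only [Function.comp_apply, id_eq] at h1
  have h2 : ‖(N : ℝ)‖ = (N : ℝ) := by
    rw [Real.norm_eq_abs, abs_of_nonneg]; positivity
  rw [h2] at h1
  have h3 := (le_abs_self _).trans h1
  rw [div_le_iff₀ (by positivity)] at h4
  linarith

/-- Lipschitz -/
private lemma lip_iter {s : ℕ → ℝ} (lip : ∀ m, |s (m + 1) - s m| ≤ 1) (j k : ℕ) :
    s (j + k) ≤ s j + k := by
  induction k with
  | zero => simp
  | succ k ih =>
    have h := (abs_le.mp (lip (j + k))).2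
    rw [show j + (k + 1) = j + k + 1 by ring]
    push_cast
    linarith

private lemma alt_step {ε θ0 θ : ℝ} {N a n : ℕ} {f s : ℕ → ℝ} (hε : 0 < ε) (ha : 2 ≤ a)
    (hN : 1 ≤ N) (hn : N + a ≤ n) (hθ0 : ε ≤ θ0) (hθ : θ0 ≤ θ)
    (inc1 : f n - f (n - a) - 1 ≤ s n * (n : ℝ) ^ (-(θ / 2) + ε / 8))
    (inc2 : f n - f (n - (a - 1)) - 1 ≤ s n * (n : ℝ) ^ (-((θ + 1) / 2) + ε / 8))
    (lip : ∀ m, |s (m + 1) - s m| ≤ 1) (hs : s n ≤ √(2 * n))
    (hbig : 16 * (a : ℝ) ^ 2 / ε ≤ (N : ℝ) ^ (3 * ε / 8)) :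
    f n ≤ f (n - a) + 1 + ε / (8 * a) ∨
      (f n ≤ f (n - (a - 1)) + 1 + ε / (8 * a) ∧
        ∀ j, n - (a - 1) < j → j ≤ n → (N : ℝ) ^ (θ0 / 2 - ε) ≤ s j) := by
  have haR : (2 : ℝ) ≤ a := by exact_mod_cast ha
  have hNR : (1 : ℝ) ≤ N := by exact_mod_cast hN
  have hNn : (N : ℝ) ≤ n := by exact_mod_cast (by omega : N ≤ n)
  have hnR : (1 : ℝ) ≤ n := hNR.trans hNn
  have hN0 : (0 : ℝ) < N := by linarith
  have hn0 : (0 : ℝ) < n := by linarith
  by_cases hc : f n ≤ f (n - a) + 1 + ε / (8 * a)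
  · exact Or.inl hc
  right
  push Not at hc
  -- basic size
  have hP : (0 : ℝ) < (N : ℝ) ^ (3 * ε / 8) := by positivity
  have hNe : (N : ℝ) ^ (-(3 * ε / 8)) = ((N : ℝ) ^ (3 * ε / 8))⁻¹ := Real.rpow_neg hN0.le _
  have hsm : (N : ℝ) ^ (-(3 * ε / 8)) ≤ ε / (16 * (a : ℝ) ^ 2) := by
    rw [hNe]
    have h1 : ε / (16 * (a : ℝ) ^ 2) = (16 * (a : ℝ) ^ 2 / ε)⁻¹ := by
      rw [inv_div]
    rw [h1]
    exact inv_anti₀ (by positivity) hbig
  constructor
  · -- second increment
    have h1 : s n * (n : ℝ) ^ (-((θ + 1) / 2) + ε / 8) ≤ √(2 * n) * (n : ℝ) ^ (-((θ + 1) / 2) + ε / 8) := by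
      gcongr
    have h2 : √(2 * (n : ℝ)) = √2 * (n : ℝ) ^ ((1 : ℝ) / 2) := by
      rw [Real.sqrt_mul (by norm_num), Real.sqrt_eq_rpow (n : ℝ)]
    have h3 : √(2 * (n : ℝ)) * (n : ℝ) ^ (-((θ + 1) / 2) + ε / 8) = √2 * (n : ℝ) ^ (-(θ / 2) + ε / 8) := by
      rw [h2, mul_assoc, ← Real.rpow_add hn0]
      congr 2
      ring
    have h4 : (n : ℝ) ^ (-(θ / 2) + ε / 8) ≤ (n : ℝ) ^ (-(3 * ε / 8)) :=
      Real.rpow_le_rpow_of_exponent_le hnR (by linarith)
    have h5 : (n : ℝ) ^ (-(3 * ε / 8)) ≤ (N : ℝ) ^ (-(3 * ε / 8)) :=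
      Real.rpow_le_rpow_of_nonpos hN0 hNn (by linarith)
    have h6 : √2 ≤ 2 := by
      rw [Real.sqrt_le_left (by norm_num)]; norm_num
    have h7 : √2 * (n : ℝ) ^ (-(θ / 2) + ε / 8) ≤ 2 * (ε / (16 * (a : ℝ) ^ 2)) := by
      apply mul_le_mul h6 (h4.trans (h5.trans hsm)) (by positivity) (by norm_num)
    have h8 : 2 * (ε / (16 * (a : ℝ) ^ 2)) ≤ ε / (8 * a) := by
      rw [mul_div_assoc', div_le_div_iff₀ (by positivity) (by positivity)]
      nlinarith [mul_pos hε (by linarith : (0 : ℝ) < a)]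
    linarith
  · -- large deviation
    have hsn : ε / (8 * a) * (n : ℝ) ^ (θ / 2 - ε / 8) < s n := by
      have h1 : ε / (8 * a) < s n * (n : ℝ) ^ (-(θ / 2) + ε / 8) := by linarith
      have h2 : (n : ℝ) ^ (-(θ / 2) + ε / 8) * (n : ℝ) ^ (θ / 2 - ε / 8) = 1 := by
        rw [← Real.rpow_add hn0]
        ring_nf
        simp
      have h3 : (0 : ℝ) < (n : ℝ) ^ (θ / 2 - ε / 8) := by positivity
      calc ε / (8 * a) * (n : ℝ) ^ (θ / 2 - ε / 8)
          < (s n * (n : ℝ) ^ (-(θ / 2) + ε / 8)) * (n : ℝ) ^ (θ / 2 - ε / 8) := by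
            gcongr
        _ = s n * ((n : ℝ) ^ (-(θ / 2) + ε / 8) * (n : ℝ) ^ (θ / 2 - ε / 8)) := by ring
        _ = s n := by rw [h2, mul_one]
    have h4 : (N : ℝ) ^ (θ0 / 2 - ε / 8) ≤ (n : ℝ) ^ (θ / 2 - ε / 8) := by
      calc (N : ℝ) ^ (θ0 / 2 - ε / 8) ≤ (n : ℝ) ^ (θ0 / 2 - ε / 8) := by
            apply Real.rpow_le_rpow hN0.le hNn
            linarith
        _ ≤ (n : ℝ) ^ (θ / 2 - ε / 8) := Real.rpow_le_rpow_of_exponent_le hnR (by linarith)
    set Q : ℝ := (N : ℝ) ^ (θ0 / 2 - ε / 8) with hQ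
    have hQ1 : (N : ℝ) ^ (3 * ε / 8) ≤ Q := Real.rpow_le_rpow_of_exponent_le hNR (by linarith)
    have hQ0 : 0 < Q := by positivity
    have h5 : (N : ℝ) ^ (θ0 / 2 - ε) ≤ Q * (ε / (16 * (a : ℝ) ^ 2)) := by
      have h6 : (N : ℝ) ^ (θ0 / 2 - ε) = Q * (N : ℝ) ^ (-(7 * ε / 8)) := by
        rw [hQ, ← Real.rpow_add hN0]
        congr 1
        ring
      have h7 : (N : ℝ) ^ (-(7 * ε / 8)) ≤ (N : ℝ) ^ (-(3 * ε / 8)) :=
        Real.rpow_le_rpow_of_exponent_le hNR (by linarith)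
      rw [h6]
      exact mul_le_mul_of_nonneg_left (h7.trans hsm) hQ0.le
    have h6 : (a : ℝ) ≤ Q * (ε / (16 * (a : ℝ) ^ 2)) * a := by
      have h7 : 16 * (a : ℝ) ^ 2 / ε ≤ Q := hbig.trans hQ1
      have h8 : (1 : ℝ) ≤ Q * (ε / (16 * (a : ℝ) ^ 2)) := by
        rw [div_le_iff₀ hε] at h7
        rw [mul_div_assoc', le_div_iff₀ (by positivity)]
        linarith
      nlinarith
    have h9 : (N : ℝ) ^ (θ0 / 2 - ε) + a ≤ s n := by
      have h10 : Q * (ε / (16 * (a : ℝ) ^ 2)) + Q * (ε / (16 * (a : ℝ) ^ 2)) * a ≤ ε / (8 * a) * Q := by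
        have h11 : ε / (8 * a) * Q - (Q * (ε / (16 * (a : ℝ) ^ 2)) + Q * (ε / (16 * (a : ℝ) ^ 2)) * a) =
          Q * (ε / (16 * (a : ℝ) ^ 2)) * (a - 1) := by
          field_simp
          ring
        have h12 : 0 ≤ Q * (ε / (16 * (a : ℝ) ^ 2)) * (a - 1) := by
          apply mul_nonneg (by positivity); linarith
        linarith
      have h13 : ε / (8 * a) * Q ≤ ε / (8 * a) * (n : ℝ) ^ (θ / 2 - ε / 8) := by gcongr
      linarith
    intro j hj1 hj2
    obtain ⟨k, rfl⟩ := Nat.exists_eq_add_of_le hj2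
    have h14 := lip_iter lip j k
    have h15 : (k : ℝ) ≤ a := by exact_mod_cast (by omega : k ≤ a)
    linarith

/-- the final computation -/
private lemma final_calc {c ε η A N N' fN fN' G G' D θ0 : ℝ} (hc : 0 < c) (hc1 : c ≤ 1)
    (hε : 0 < ε) (hε1 : ε < 1) (hη : 0 < η) (hη1 : η ≤ c * ε / 4) (hA : 2 ≤ A)
    (hN : 0 < N) (hN'1 : (1 + η) * N - 1 ≤ N') (hN'2 : N' ≤ (1 + η) * N)
    (hθ0 : 0 ≤ θ0) (hθ1 : θ0 ≤ 1) (hG : G = A + θ0 - 1 - 1 / c) (hG' : G' ≤ G + η / c)
    (hN0' : 0 < N')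
    (hlow : N' / (G' + η * ε / 48) ≤ fN') (hG'0 : 0 < G' + η * ε / 48)
    (hupp : fN ≤ N / (G - η * ε / 48)) (hG0 : 0 < G - η * ε / 48)
    (hAbig : 2 * (2 + 1 / c) ≤ (η * ε / (64 * (2 + 1 / c))) * A)
    (hNbig : (2 + 1 / c) + A ^ 3 ≤ η * ε / 64 * N)
    (hwin : fN' ≤ fN + A + (1 + ε / (8 * A)) / A * (N' - N) +
      ((1 + ε / (8 * A)) / (A - 1) - (1 + ε / (8 * A)) / A) * D) :
    (1 - θ0 - ε) * (η * N) ≤ D := by
  have hc' : 1 ≤ 1 / c := by rw [le_div_iff₀ hc]; linarith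
  set X : ℝ := 2 + 1 / c with hX
  have hX0 : 3 ≤ X := by linarith
  set s : ℝ := η * ε / (64 * X) with hs
  set e : ℝ := ε / (8 * A) with he
  have he0 : 0 < e := by positivity
  have he1 : e * A = ε / 8 := by rw [he]; field_simp
  have he2 : e ≤ ε / 8 := by
    have : e * 1 ≤ e * A := by gcongr; linarith
    linarith
  have hs0 : 0 < s := by positivity
  have hηs : η ≤ ε / 4 := by
    have h1 : c * ε ≤ 1 * ε := by gcongr
    linarith
  have hsX : s * X = η * ε / 64 := by rw [hs]; field_simp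
  have hηε : η * ε ≤ 1 / 4 := by
    have h1 : η * ε ≤ 1 / 4 * 1 := by
      apply mul_le_mul <;> linarith
    linarith
  have hs1 : s ≤ 1 / 256 := by
    have h1 : s * 1 ≤ s * X := by
      apply mul_le_mul_of_nonneg_left <;> linarith
    linarith
  set ε' : ℝ := η * ε / 48 with hε'
  have hε'0 : 0 < ε' := by positivity
  have hε'1 : ε' ≤ 1 / 192 := by rw [hε']; linarith
  set G1 : ℝ := G + η / c + ε' with hG1
  set G2 : ℝ := G - ε' with hG2
  have hηc : η / c ≤ ε / 4 := by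
    rw [div_le_iff₀ hc]; linarith
  have hηc0 : 0 < η / c := by positivity
  have hG1p : 0 < G1 := by linarith
  -- x
  set x : ℝ := A - G with hx
  have hx1 : x = 1 + 1 / c - θ0 := by rw [hx, hG]; ring
  have hx2 : x ≤ X - 1 := by rw [hx1, hX]; linarith
  have hx3 : 1 ≤ x := by rw [hx1]; linarith
  have hAG1 : (1 - s) * G1 ≤ A - 1 := by
    have h1 : G1 = A - x + (η / c + ε') := by rw [hG1, hx]; ring
    have h3 : 0 ≤ (1 - s) * x := by apply mul_nonneg <;> linarith
    have h4 : (1 - s) * (η / c + ε') ≤ 1 * (η / c + ε') := by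
      apply mul_le_mul_of_nonneg_right <;> linarith
    have h5 : (1 - s) * (A - x + (η / c + ε')) = A - s * A - (1 - s) * x + (1 - s) * (η / c + ε') := by
      ring
    rw [h1, h5]
    linarith
  have hAG2 : A - 1 ≤ (1 + s) * G2 := by
    have h1 : G2 = A - (x + ε') := by rw [hG2, hx]; ring
    have h3 : (1 + s) * (x + ε') ≤ 2 * X := by
      apply mul_le_mul <;> linarith
    have h5 : (1 + s) * (A - (x + ε')) = A + s * A - (1 + s) * (x + ε') := by
      ring
    rw [h1, h5]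
    linarith
  -- lower bound of fN'
  have hlow1 : N' / G1 ≤ fN' := by
    refine le_trans ?_ hlow
    apply div_le_div_of_nonneg_left hN0'.le hG'0
    linarith
  have hA0 : 0 < A := by linarith
  have hA1 : 0 < A - 1 := by linarith
  -- inequality for D
  have hk : (1 + e) / (A - 1) - (1 + e) / A = (1 + e) / (A * (A - 1)) := by
    field_simp
    ring
  rw [hk] at hwin
  have hD : A * (A - 1) * (fN' - fN - A - (1 + e) / A * (N' - N)) ≤ (1 + e) * D := by
    have h1 : A * (A - 1) * (fN' - fN - A - (1 + e) / A * (N' - N)) ≤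
        A * (A - 1) * ((1 + e) / (A * (A - 1)) * D) := by
      apply mul_le_mul_of_nonneg_left _ (by positivity)
      linarith
    have h2 : A * (A - 1) * ((1 + e) / (A * (A - 1)) * D) = (1 + e) * D := by
      field_simp
    linarith
  -- lower bound for the left side
  have hL1 : (x - η / c - ε') * (1 - s) * N' ≤ A * (A - 1) * (N' / G1 - N' / A) := by
    have h1 : A * (A - 1) * (N' / G1 - N' / A) = (A - G1) * N' * ((A - 1) / G1) := by
      field_simp
    have h2 : (1 - s) ≤ (A - 1) / G1 := by rw [le_div_iff₀ hG1p]; exact hAG1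
    have h3 : A - G1 = x - η / c - ε' := by rw [hG1, hx]; ring
    rw [h1, h3]
    have h4 : 0 ≤ x - η / c - ε' := by linarith
    calc (x - η / c - ε') * (1 - s) * N' = (x - η / c - ε') * N' * (1 - s) := by ring
      _ ≤ (x - η / c - ε') * N' * ((A - 1) / G1) := by gcongr
  have hL2 : A * (A - 1) * (N / G2 - N / A) ≤ (x + ε') * (1 + s) * N := by
    have h1 : A * (A - 1) * (N / G2 - N / A) = (A - G2) * N * ((A - 1) / G2) := by
      field_simp
    have h2 : (A - 1) / G2 ≤ 1 + s := by rw [div_le_iff₀ hG0]; exact hAG2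
    have h3 : A - G2 = x + ε' := by rw [hG2, hx]; ring
    rw [h1, h3]
    calc (x + ε') * N * ((A - 1) / G2) ≤ (x + ε') * N * (1 + s) := by gcongr
      _ = (x + ε') * (1 + s) * N := by ring
  have hT : (x - η / c - ε') * (1 - s) * N' - (x + ε') * (1 + s) * N - A ^ 2 * (A - 1)
      - e * (A - 1) * (N' - N) ≤ (1 + e) * D := by
    have h1 : A * (A - 1) * (N' / G1 - N / G2 - A - (1 + e) / A * (N' - N)) ≤
        A * (A - 1) * (fN' - fN - A - (1 + e) / A * (N' - N)) := by
      apply mul_le_mul_of_nonneg_left _ (by positivity)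
      linarith
    have h2 : A * (A - 1) * (N' / G1 - N / G2 - A - (1 + e) / A * (N' - N)) =
        A * (A - 1) * (N' / G1 - N' / A) - A * (A - 1) * (N / G2 - N / A) - A ^ 2 * (A - 1)
          - e * (A - 1) * (N' - N) := by
      field_simp
      ring
    linarith
  -- now replace N'
  have h5 : e * (A - 1) * (N' - N) ≤ ε / 8 * (η * N) := by
    have h6 : e * (A - 1) ≤ ε / 8 := by
      have h7 : e * (A - 1) = e * A - e := by ring
      linarith
    have h7 : N' - N ≤ η * N := by linarith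
    have h8 : 0 ≤ e * (A - 1) := by positivity
    calc e * (A - 1) * (N' - N) ≤ e * (A - 1) * (η * N) := by gcongr
      _ ≤ ε / 8 * (η * N) := by gcongr
  have h6 : (x - η / c - ε') * ((1 + η) * N) - X * (s * (2 * N)) - X ≤
      (x - η / c - ε') * (1 - s) * N' := by
    have hy0 : 0 ≤ x - η / c - ε' := by linarith
    have hy1 : x - η / c - ε' ≤ X := by linarith
    have h7 : (x - η / c - ε') * (1 - s) * ((1 + η) * N - 1) ≤ (x - η / c - ε') * (1 - s) * N' := by
      apply mul_le_mul_of_nonneg_left hN'1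
      apply mul_nonneg hy0
      linarith
    have h8 : (x - η / c - ε') * (1 - s) * ((1 + η) * N - 1) =
        (x - η / c - ε') * ((1 + η) * N) - (x - η / c - ε') * (s * ((1 + η) * N)) -
          (x - η / c - ε') * (1 - s) := by ring
    have h9 : (x - η / c - ε') * (s * ((1 + η) * N)) ≤ X * (s * (2 * N)) := by
      have : η ≤ 1 := by linarith
      gcongr
      linarith
    have h10 : (x - η / c - ε') * (1 - s) ≤ X := by
      calc (x - η / c - ε') * (1 - s) ≤ (x - η / c - ε') * 1 := by gcongr; linarith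
        _ ≤ X := by linarith
    linarith
  have h7 : (x + ε') * (1 + s) * N ≤ (x + ε') * N + X * s * N := by
    have : x + ε' ≤ X := by linarith
    have h8 : (x + ε') * s * N ≤ X * s * N := by gcongr
    linarith
  have h8 : A ^ 2 * (A - 1) ≤ A ^ 3 := by
    have h7 : A ^ 2 * (A - 1) = A ^ 3 - A ^ 2 := by ring
    have h8 : 0 ≤ A ^ 2 := sq_nonneg A
    linarith
  have h9 : (x - η / c - ε') * ((1 + η) * N) - (x + ε') * N =
      (η * (1 - θ0) - η * (η / c) - (2 + η) * ε') * N := by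
    rw [hx1]
    field_simp
    ring
  have h10 : (1 - θ0 - ε / 2) * (η * N) ≤ (1 + e) * D := by
    have h11 : η * (η / c) * N ≤ ε / 4 * (η * N) := by
      have : η * N * (η / c) ≤ η * N * (ε / 4) := by gcongr
      linarith
    have h12 : (2 + η) * ε' * N ≤ ε / 16 * (η * N) := by
      have h13 : (2 + η) * ε' ≤ 3 * ε' := by gcongr; linarith
      have h14 : 3 * ε' * N = ε / 16 * (η * N) := by rw [hε']; ring
      calc (2 + η) * ε' * N ≤ 3 * ε' * N := by gcongr
        _ = _ := h14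
    have h15 : X * (s * (2 * N)) = ε / 32 * (η * N) := by
      rw [show X * (s * (2 * N)) = 2 * (s * X) * N by ring, hsX]; ring
    have h16 : X * s * N = ε / 64 * (η * N) := by
      rw [show X * s * N = (s * X) * N by ring, hsX]; ring
    have h17 : (η * (1 - θ0) - η * (η / c) - (2 + η) * ε') * N =
      (1 - θ0) * (η * N) - η * (η / c) * N - (2 + η) * ε' * N := by ring
    have h18 : η * ε / 64 * N = ε / 64 * (η * N) := by ring
    have h19 : (1 - θ0 - ε / 2) * (η * N) = (1 - θ0) * (η * N) - ε / 2 * (η * N) := by ring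
    linarith
  have h11 : (1 + e) * ((1 - θ0 - ε) * (η * N)) ≤ (1 - θ0 - ε / 2) * (η * N) := by
    have h12 : (1 + e) * (1 - θ0 - ε) ≤ 1 - θ0 - ε / 2 := by
      have h13 : e * (1 - θ0 - ε) ≤ e * 1 := by
        apply mul_le_mul_of_nonneg_left <;> linarith
      have h14 : (1 + e) * (1 - θ0 - ε) = (1 - θ0 - ε) + e * (1 - θ0 - ε) := by ring
      linarith
    calc (1 + e) * ((1 - θ0 - ε) * (η * N)) = ((1 + e) * (1 - θ0 - ε)) * (η * N) := by ring
      _ ≤ (1 - θ0 - ε / 2) * (η * N) := by gcongr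
  have h12 : (1 + e) * ((1 - θ0 - ε) * (η * N)) ≤ (1 + e) * D := h11.trans h10
  exact le_of_mul_le_mul_left h12 (by linarith)

theorem tWTH : StInc → StLip → StMcd → StLow → StUpp → StWin → StWth := by
  intro hInc hLip hMcd hLow hUpp hWin p ε hp0 hp1 hε hε1
  have hb : 0 < bb p := bb_pos hp0 hp1
  have hb2 : bb p ≤ 2 := bb_le hp1
  have hp1' : p < 1 := by
    have he : 0 < 1 / Real.exp 2 := by positivity
    linarith
  refine ⟨bb p / 2 * ε / 4, by positivity, ?_⟩
  intro η hη hη1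
  obtain ⟨c, hc⟩ : ∃ c : ℝ, c = bb p / 2 := ⟨_, rfl⟩
  have hc0 : 0 < c := by rw [hc]; positivity
  have hc1 : c ≤ 1 := by rw [hc]; linarith
  have h1c : 1 / c = 2 / bb p := by rw [hc, one_div_div]
  obtain ⟨X, hX⟩ : ∃ X : ℝ, X = 2 + 1 / c := ⟨_, rfl⟩
  have hX0 : 0 < X := by rw [hX]; positivity
  obtain ⟨n1, h1⟩ := hInc p (ε / 8) hp0 hp1' (by positivity)
  obtain ⟨n2, h2⟩ := hLow p (η * ε / 48) hp0 hp1' (by positivity)
  obtain ⟨n3, h3⟩ := hUpp p (η * ε / 48) hp0 hp1 (by positivity)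
  have hL : Tendsto (fun N : ℕ => Real.log (N : ℝ)) atTop atTop :=
    Real.tendsto_log_atTop.comp tendsto_natCast_atTop_atTop
  have E1 := hL.eventually (eventually_ge_atTop (1 : ℝ))
  have E2 := al_upper hb
  have E3 := log_sq_small (64 / (bb p ^ 2 * ε)) (3 * ε / 8) (by positivity)
  have E4 := log_cu_small (8 / bb p ^ 3) X (η * ε / 64) (by positivity)
  have E5 := al_tendsto hb (2 * X / (η * ε / (64 * X)) + 3)
  obtain ⟨N0, hN0⟩ := eventually_atTop.mp ((((E1.and E2).and E3).and E4).and E5)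
  refine ⟨max N0 (max (max n1 n2) (max n3 1)), fun N a hN ha1 ha2 => ?_⟩
  have hNN0 : N0 ≤ N := (le_max_left _ _).trans hN
  have hNr : max (max n1 n2) (max n3 1) ≤ N := (le_max_right _ _).trans hN
  have hNn1 : n1 ≤ N := (le_max_left n1 n2).trans ((le_max_left _ _).trans hNr)
  have hNn2 : n2 ≤ N := (le_max_right n1 n2).trans ((le_max_left _ _).trans hNr)
  have hNn3 : n3 ≤ N := (le_max_left n3 1).trans ((le_max_right _ _).trans hNr)
  have hN1 : 1 ≤ N := (le_max_right n3 1).trans ((le_max_right _ _).trans hNr)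
  obtain ⟨⟨⟨⟨F1, F2⟩, F3⟩, F4⟩, F5⟩ := hN0 N hNN0
  have hNR : (0 : ℝ) < N := by exact_mod_cast hN1
  obtain ⟨N', hN'⟩ : ∃ N' : ℕ, N' = ⌊(1 + η) * (N : ℝ)⌋₊ := ⟨_, rfl⟩
  rw [← hN'] at ha2 ⊢
  have hN'up : (N' : ℝ) ≤ (1 + η) * N := by
    rw [hN']; exact Nat.floor_le (by positivity)
  have hN'lo : (1 + η) * N - 1 ≤ (N' : ℝ) := by
    rw [hN']
    have := Nat.lt_floor_add_one ((1 + η) * (N : ℝ))
    linarith
  have hNN' : N ≤ N' := by
    rw [hN']
    apply Nat.le_floor
    nlinarith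
  have hNN'R : (N : ℝ) ≤ N' := by exact_mod_cast hNN'
  have hmono : al p N ≤ al p N' := al_mono hb F1 hNR hNN'R
  -- size of a
  have haup : (a : ℝ) ≤ 2 * Real.log N / bb p := by linarith
  have hK : 0 < 2 * X / (η * ε / (64 * X)) := by positivity
  have halo : 2 * X / (η * ε / (64 * X)) + 2 ≤ a := by linarith
  have ha2R : (2 : ℝ) ≤ a := by linarith
  have ha2N : 2 ≤ a := by exact_mod_cast ha2R
  have hbig : 16 * (a : ℝ) ^ 2 / ε ≤ (N : ℝ) ^ (3 * ε / 8) := by
    refine le_trans ?_ F3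
    have h : 16 * (a : ℝ) ^ 2 / ε ≤ 16 * (2 * Real.log N / bb p) ^ 2 / ε := by gcongr
    refine h.trans (le_of_eq ?_)
    field_simp
    ring
  have hcub : X + (a : ℝ) ^ 3 ≤ η * ε / 64 * N := by
    refine le_trans ?_ F4
    have h : (a : ℝ) ^ 3 ≤ (2 * Real.log N / bb p) ^ 3 := by gcongr
    have h' : (2 * Real.log N / bb p) ^ 3 = 8 / bb p ^ 3 * Real.log N ^ 3 := by
      field_simp
      ring
    linarith
  -- window lemma
  have hW := hWin (fn p) {n : ℕ | (N : ℝ) ^ ((al p N - a) / 2 - ε) ≤ sn p n} N N' a (ε / (8 * a))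
    ha2N hNN' (by positivity) (fun n => by
      have h := (hLip p n hp0.le hp1'.le).2.1
      linarith) (fun n hn1 hn2 => by
      have hNn : N ≤ n := by omega
      have hNnR : (N : ℝ) ≤ n := by exact_mod_cast hNn
      have hnN'R : (n : ℝ) ≤ N' := by exact_mod_cast hn2
      have hnpos : (0 : ℝ) < n := by linarith
      have hlogn : 1 ≤ Real.log (n : ℝ) := F1.trans (Real.log_le_log hNR hNnR)
      have hm1 : al p N ≤ al p n := al_mono hb F1 hNR hNnR
      have hm2 : al p n ≤ al p N' := al_mono hb hlogn hnpos hnN'R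
      obtain ⟨i1, i2⟩ := h1 n a (by omega) (by linarith) (by linarith)
      have hs : sn p n ≤ √(2 * n) := by
        unfold sn
        exact Real.sqrt_le_sqrt (hMcd p n 0 hp0.le hp1'.le (by omega) le_rfl).1
      exact alt_step (θ0 := al p N - a) (θ := al p n - a) (s := sn p) hε ha2N hN1 hn1 (by linarith)
        (by linarith) i1 i2 (fun m => (hLip p m hp0.le hp1'.le).2.2) hs hbig)
  have hlow := h2 N' (hNn2.trans hNN')
  obtain ⟨hG0, hupp⟩ := h3 N hNn3
  obtain ⟨hG0', -⟩ := h3 N' (hNn3.trans hNN')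
  have hε'0 : 0 < η * ε / 48 := by positivity
  have hGdiff : ga p N' ≤ ga p N + η / c := by
    have h4 := al_diff hb F1 hNR hNN'R
    have h5 : Real.log (N' : ℝ) - Real.log N ≤ η := by
      have h6 : Real.log (N' : ℝ) ≤ Real.log ((1 + η) * N) :=
        Real.log_le_log (by linarith) hN'up
      rw [Real.log_mul (by positivity) hNR.ne'] at h6
      have h7 : Real.log (1 + η) ≤ 1 + η - 1 := Real.log_le_sub_one_of_pos (by positivity)
      linarith
    have h6 : 2 / bb p * (Real.log (N' : ℝ) - Real.log N) ≤ 2 / bb p * η := by gcongr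
    have h7 : 2 / bb p * η = η / c := by rw [← h1c]; ring
    unfold ga
    linarith
  have hfin := final_calc (c := c) (ε := ε) (η := η) (A := a) (N := N) (N' := N')
    (fN' := fn p N') (fN := fn p N) (G := ga p N) (G' := ga p N') (θ0 := al p N - a)
    (D := (((Ioc N N').filter (fun n : ℕ => n ∈ {n : ℕ | (N : ℝ) ^ ((al p N - a) / 2 - ε) ≤ sn p n})).card : ℝ))
    hc0 hc1 hε hε1 hη (by rw [hc]; exact hη1.le) ha2R hNR hN'lo hN'up (by linarith) (by linarith)
    (by unfold ga; rw [h1c]; ring) hGdiff (by linarith) hlow (by linarith) hupp hG0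
    (by
      rw [← hX]
      have h4 : 2 * X / (η * ε / (64 * X)) ≤ a := by linarith
      rw [div_le_iff₀ (by positivity)] at h4
      linarith) (by rw [← hX]; exact hcub) (by convert hW using 3)
  simpa using hfin

end Pool.Agent.Helper26.CN
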